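import Pool.Agent.Y98.NA.Mol

/-!
# NA-Term: derivative of a mollification in another coordinate system
-/

set_option autoImplicit false

open Set Filter Topology Metric Function MeasureTheory
open scoped Manifold ContDiff Convolution

noncomputable section

namespace Pool.Agent.Y98.NA

open Pool.Agent.Y522 Pool.Agent.Y522.NA Pool.Agent.Y954.SH

variable {n q : ℕ}

/-- Taylor's formula with a uniform remainder -/
lemma taylor2 {E0 : E n → E q} {w0 : E n} (h : ∀ᶠ w in 𝓝 w0, ContDiffAt ℝ ∞ E0 w) :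
    ∃ r C1 : ℝ, 0 < r ∧ 0 ≤ C1 ∧ ∀ p ∈ ball w0 r, ContDiffAt ℝ ∞ E0 p ∧ ∀ p' ∈ ball w0 r,
      ‖E0 p' - E0 p - fderiv ℝ E0 p (p' - p)‖ ≤ C1 * ‖p' - p‖ ^ 2 := by
  have h1 : ContDiffAt ℝ 1 (fderiv ℝ E0) w0 :=
    h.self_of_nhds.fderiv_right (m := 1) (by norm_cast)
  obtain ⟨C, t, ht, hC⟩ := h1.exists_lipschitzOnWith
  obtain ⟨r, hr, hb⟩ := Metric.eventually_nhds_iff_ball.1 (h.and ht)
  refine ⟨r, C, hr, C.2, fun p hp => ⟨(hb p hp).1, fun p' hp' => ?_⟩⟩
  have hseg : segment ℝ p p' ⊆ ball w0 r := (convex_ball w0 r).segment_subset hp hp'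
  have h2 : ∀ x ∈ segment ℝ p p', ‖fderiv ℝ E0 x - fderiv ℝ E0 p‖ ≤ C * ‖p' - p‖ := by
    intro x hx
    have h3 := hC.dist_le_mul x (hb x (hseg hx)).2 p (hb p hp).2
    rw [dist_eq_norm, dist_eq_norm] at h3
    exact h3.trans (mul_le_mul_of_nonneg_left (norm_sub_le_of_mem_segment hx) C.2)
  have h3 := (convex_segment p p').norm_image_sub_le_of_norm_hasFDerivWithin_le' (f := E0)
    (f' := fderiv ℝ E0) (φ := fderiv ℝ E0 p)
    (fun x hx => (((hb x (hseg hx)).1.differentiableAt (by simp)).hasFDerivAt).hasFDerivWithinAt)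
    h2 (left_mem_segment ℝ p p') (right_mem_segment ℝ p p')
  calc _ ≤ C * ‖p' - p‖ * ‖p' - p‖ := h3
    _ = C * ‖p' - p‖ ^ 2 := by ring

/-- uniform differentiability and Lipschitz constant -/
lemma unif {S : E n → E n} {y : E n} {K : ℝ} (hK : 0 ≤ K) (hS : ∀ᶠ w in 𝓝 y, ContDiffAt ℝ ∞ S w)
    (hl : ∀ᶠ w in 𝓝 y, ∀ᶠ w' in 𝓝 w, ‖S w' - S w‖ ≤ K * ‖w' - w‖) {δ : ℝ} (hδ : 0 < δ) :
    ∃ r : ℝ, 0 < r ∧ ∀ w ∈ ball y r, ContDiffAt ℝ ∞ S w ∧ ‖fderiv ℝ S w‖ ≤ K ∧ ∀ w' ∈ ball y r,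
      ‖S w' - S w‖ ≤ K * ‖w' - w‖ ∧ ‖S w' - S w - fderiv ℝ S w (w' - w)‖ ≤ δ * ‖w' - w‖ := by
  have h1 : ContDiffAt ℝ 1 (fderiv ℝ S) y :=
    hS.self_of_nhds.fderiv_right (m := 1) (by norm_cast)
  have h2 : ∀ᶠ w in 𝓝 y, dist (fderiv ℝ S w) (fderiv ℝ S y) < δ / 2 :=
    Metric.tendsto_nhds.1 h1.continuousAt _ (by positivity)
  obtain ⟨r, hr, hb⟩ := Metric.eventually_nhds_iff_ball.1 (hS.and (hl.and h2))
  have hd : ∀ w ∈ ball y r, HasFDerivAt S (fderiv ℝ S w) w := fun w hw =>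
    ((hb w hw).1.differentiableAt (by simp)).hasFDerivAt
  have hn : ∀ w ∈ ball y r, ‖fderiv ℝ S w‖ ≤ K := fun w hw =>
    (hd w hw).le_of_lip' hK (hb w hw).2.1
  refine ⟨r, hr, fun w hw => ⟨(hb w hw).1, hn w hw, fun w' hw' => ⟨?_, ?_⟩⟩⟩
  · exact (convex_ball y r).norm_image_sub_le_of_norm_hasFDerivWithin_le (f := S)
      (f' := fderiv ℝ S) (fun x hx => (hd x hx).hasFDerivWithinAt) hn hw hw'
  · refine (convex_ball y r).norm_image_sub_le_of_norm_hasFDerivWithin_le' (f := S)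
      (f' := fderiv ℝ S) (φ := fderiv ℝ S w) (fun x hx => (hd x hx).hasFDerivWithinAt)
      (fun x hx => ?_) hw hw'
    have h3 := (hb x hx).2.2
    have h4 := (hb w hw).2.2
    rw [dist_comm] at h4
    rw [← dist_eq_norm]
    linarith [dist_triangle (fderiv ℝ S x) (fderiv ℝ S y) (fderiv ℝ S w)]

/-- the decomposition of an integral -/
lemma core {k : E n → ℝ} (hk : Continuous k) (h0 : ∀ s, 1 ≤ ‖s‖ → k s = 0)
    {x : E n → E n} (hx : ContinuousOn x (closedBall 0 1)) {h : E n → E q}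
    (hh : ContinuousOn h (closedBall 0 1)) (L : E n ≃L[ℝ] E n) (D : E n →L[ℝ] E q) (e : E q)
    {B : ℝ} (hR : ∀ s, ‖s‖ ≤ 1 → ‖h s - e - D (x s)‖ ≤ B) :
    ∃ ξ, ∫ s, k s • h s = (∫ s, k s) • e + D (L (∫ s, k s • L.symm (x s))) + ξ ∧
      ‖ξ‖ ≤ (∫ s, ‖k s‖) * B := by
  refine ⟨∫ s, k s • (h s - e - D (x s)), ?_, int_bd hk h0 hR⟩
  have hDx : ContinuousOn (fun s => D (x s)) (closedBall 0 1) := D.continuous.comp_continuousOn hx
  have hLx : ContinuousOn (fun s => L.symm (x s)) (closedBall 0 1) :=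
    L.symm.continuous.comp_continuousOn hx
  have i1 := int_cut hk h0 hh
  have i2 : Integrable (fun s => k s • e) := int_cut hk h0 continuousOn_const
  have i3 := int_cut hk h0 hDx
  have i4 := int_cut hk h0 hLx
  have e1 : D (L (∫ s, k s • L.symm (x s))) = ∫ s, k s • D (x s) := by
    have h1 := (D.comp (L : E n →L[ℝ] E n)).integral_comp_comm i4
    rw [ContinuousLinearMap.comp_apply] at h1
    refine h1.symm.trans ?_
    congr 1
    funext s
    simp
  have e2 : ∀ s, k s • (h s - e - D (x s)) = k s • h s - k s • e - k s • D (x s) := fun s => by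
    rw [smul_sub, smul_sub]
  simp only [e2]
  rw [e1, integral_sub (f := fun s => k s • h s - k s • e) (i1.sub i2) i3, integral_sub i1 i2,
    integral_smul_const]
  abel

lemma k1_norm (a : E n) : ∫ s, ‖k1 a s‖ ≤ (∫ s, ‖fderiv ℝ (kr n) s‖) * ‖a‖ := by
  rw [← integral_mul_const]
  have h1 : Integrable (fun s => k1 a s • (1 : ℝ)) :=
    int_cut (k1_cont a) (fun _ h => k1_zero h) continuousOn_const
  simp only [smul_eq_mul, mul_one] at h1
  have h2 : Integrable (fun s => ‖fderiv ℝ (kr n) s‖) := by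
    have h3 : Integrable (fun s => ‖fderiv ℝ (kr n) s‖ • (1 : ℝ)) :=
      int_cut ((kr_smooth (n := n)).continuous_fderiv (by simp)).norm
        (fun s h => by rw [kr_fderiv_zero h, norm_zero]) continuousOn_const
    simpa using h3
  refine integral_mono h1.norm (h2.mul_const _) fun s => ?_
  show ‖k1 a s‖ ≤ _
  unfold k1
  rw [norm_neg]
  exact (fderiv ℝ (kr n) s).le_opNorm a

lemma kr_norm : ∫ s, ‖kr n s‖ = 1 := by
  rw [← kr_int (n := n)]
  congr 1
  funext s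
  exact Real.norm_of_nonneg (kr_nonneg s)

theorem term : StTerm := by
  intro n κ
  obtain ⟨K, hK⟩ : ∃ K, K = |κ| := ⟨_, rfl⟩
  have hK0 : 0 ≤ K := by rw [hK]; exact abs_nonneg κ
  obtain ⟨M, hM⟩ : ∃ M, M = ∫ s, ‖fderiv ℝ (kr n) s‖ := ⟨_, rfl⟩
  have hM0 : 0 ≤ M := by rw [hM]; exact integral_nonneg fun s => norm_nonneg _
  refine ⟨2 * M * K ^ 2 + 2 * M * K + 3 * K + 1, by positivity, ?_⟩
  intro q g E0 T S y hg hE hT δ hδ
  obtain ⟨r1, C1, hr1, hC1, hTay⟩ := taylor2 hE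
  have hSev : ∀ᶠ w in 𝓝 y, ContDiffAt ℝ ∞ S w := hT.ldS.eventually.mono fun w hw => hw.contDiffAt
  have hTev : ∀ᶠ z in 𝓝 (0 : E n), ContDiffAt ℝ ∞ T z :=
    hT.ldT.eventually.mono fun w hw => hw.contDiffAt
  have hSl : ∀ᶠ w in 𝓝 y, ∀ᶠ w' in 𝓝 w, ‖S w' - S w‖ ≤ K * ‖w' - w‖ :=
    hT.lipS.mono fun w hw => hw.mono fun w' hw' =>
      hw'.trans (mul_le_mul_of_nonneg_right (by rw [hK]; exact le_abs_self κ) (norm_nonneg _))
  have hTl : ∀ᶠ w in 𝓝 (0 : E n), ∀ᶠ w' in 𝓝 w, ‖T w' - T w‖ ≤ K * ‖w' - w‖ :=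
    hT.lipT.mono fun w hw => hw.mono fun w' hw' =>
      hw'.trans (mul_le_mul_of_nonneg_right (by rw [hK]; exact le_abs_self κ) (norm_nonneg _))
  have hSy : S y = 0 := by
    have := hT.inv.self_of_nhds
    rwa [hT.pt] at this
  have hgS : ∀ᶠ w in 𝓝 y, ContinuousAt g (S w) ∧ g (S w) ∈ ball (g 0) r1 := by
    have h1 : Tendsto S (𝓝 y) (𝓝 0) := by
      have := hSev.self_of_nhds.continuousAt
      rwa [ContinuousAt, hSy] at this
    have h2 : ∀ᶠ z in 𝓝 (0 : E n), ContinuousAt g z ∧ g z ∈ ball (g 0) r1 :=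
      hg.and (hg.self_of_nhds.eventually (ball_mem_nhds _ hr1))
    exact h1.eventually h2
  obtain ⟨ra, hra, hSa⟩ := unif hK0 hSev hSl hδ
  obtain ⟨rb, hrb, hSb⟩ := Metric.eventually_nhds_iff_ball.1 hgS
  obtain ⟨rc, hrc, hTc⟩ := unif hK0 hTev hTl one_pos
  obtain ⟨r, hr⟩ : ∃ r, r = min ra rb := ⟨_, rfl⟩
  have hr0 : 0 < r := by rw [hr]; exact lt_min hra hrb
  have hSa' : ∀ w ∈ ball y r, w ∈ ball y ra := fun w hw =>
    ball_subset_ball (by rw [hr]; exact min_le_left _ _) hw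
  have hSb' : ∀ w ∈ ball y r, ContinuousAt g (S w) ∧ g (S w) ∈ ball (g 0) r1 := fun w hw =>
    hSb w (ball_subset_ball (by rw [hr]; exact min_le_right _ _) hw)
  have hTy : ∀ᶠ z in 𝓝 (0 : E n), T z ∈ ball y (r / 4) := by
    have h1 := hTev.self_of_nhds.continuousAt
    rw [ContinuousAt, hT.pt] at h1
    exact h1.eventually (ball_mem_nhds _ (by positivity))
  obtain ⟨rd, hrd, hTd⟩ := Metric.eventually_nhds_iff_ball.1
    (hTy.and (hT.inv.and (eventually_eventually_nhds.2 hT.inv)))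
  refine ⟨min rc rd, r / 4, 9 * C1 * K ^ 2 + 9 * M * C1 * K ^ 3, lt_min hrc hrd, by positivity, ?_⟩
  intro z hz c hc hc0
  have hzc : z ∈ ball (0 : E n) rc := by
    rw [mem_ball_zero_iff]
    exact hz.trans_le (min_le_left _ _)
  have hzd : z ∈ ball (0 : E n) rd := by
    rw [mem_ball_zero_iff]
    exact hz.trans_le (min_le_right _ _)
  obtain ⟨hTzy, hSTz, hSTev⟩ := hTd z hzd
  obtain ⟨hTs, hTn, -⟩ := hTc z hzc
  rw [mem_ball] at hTzy
  have hTzr : T z ∈ ball y r := by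
    rw [mem_ball]
    linarith
  have hin : ∀ s : E n, ‖s‖ ≤ 1 → T z + c • s ∈ ball y r := by
    intro s hs
    rw [mem_ball]
    calc dist (T z + c • s) y ≤ dist (T z + c • s) (T z) + dist (T z) y := dist_triangle _ _ _
      _ = c * ‖s‖ + dist (T z) y := by
          rw [dist_eq_norm, add_sub_cancel_left, norm_smul, Real.norm_of_nonneg hc.le]
      _ ≤ c * 1 + dist (T z) y := by gcongr
      _ < r := by linarith
  -- the derivative of the inverse
  have hSd : HasFDerivAt S (fderiv ℝ S (T z)) (T z) :=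
    ((hSa _ (hSa' _ hTzr)).1.differentiableAt (by simp)).hasFDerivAt
  have hTd' : HasFDerivAt T (fderiv ℝ T z) z := (hTs.differentiableAt (by simp)).hasFDerivAt
  have hcomp : ∀ u, fderiv ℝ S (T z) (fderiv ℝ T z u) = u := by
    intro u
    have h1 : HasFDerivAt (fun z => z) ((fderiv ℝ S (T z)).comp (fderiv ℝ T z)) z :=
      (hSd.comp z hTd').congr_of_eventuallyEq (hSTev.mono fun z' hz' => hz'.symm)
    have h2 := h1.unique (hasFDerivAt_id z)
    exact DFunLike.congr_fun h2 u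
  -- the mollification
  obtain ⟨H, hH⟩ : ∃ H : E n → E q, H = fun w => E0 (g (S w)) := ⟨_, rfl⟩
  have hgSc : ContinuousOn (fun w => g (S w)) (ball y r) := by
    intro w hw
    exact ((hSb' w hw).1.comp (hSa _ (hSa' _ hw)).1.continuousAt).continuousWithinAt
  have hHc : ContinuousOn H (ball y r) := by
    intro w hw
    rw [hH]
    have h1 : ContinuousAt E0 (g (S w)) := (hTay _ (hSb' w hw).2).1.continuousAt
    exact ContinuousAt.comp_continuousWithinAt (f := fun w => g (S w)) h1 (hgSc w hw)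
  obtain ⟨m, hm⟩ : ∃ m : E n → E q, m = fun w => ∫ s, kr n s • H (w + c • s) := ⟨_, rfl⟩
  have hTerm : Term n q g E0 T S c = fun z => m (T z) := by
    rw [hm, hH]
    rfl
  obtain ⟨hm1, hm2⟩ := mol_loc (y := y) (R := r / 2)
    (hHc.mono (closedBall_subset_ball (by linarith))) hc (w := T z) (by linarith)
  rw [← hm] at hm1 hm2
  refine ⟨by rw [hTerm]; exact hm1.comp z hTs, ?_⟩
  intro L ε hε0 hε1 hL
  obtain ⟨x, hx⟩ : ∃ x : E n → E n, x = fun s => g (S (T z + c • s)) - g z := ⟨_, rfl⟩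
  obtain ⟨h, hh⟩ : ∃ h : E n → E q, h = fun s => H (T z + c • s) := ⟨_, rfl⟩
  have hmap : MapsTo (fun s : E n => T z + c • s) (closedBall 0 1) (ball y r) := fun s hs =>
    hin s (mem_closedBall_zero_iff.1 hs)
  have hlin : Continuous fun s : E n => T z + c • s := by fun_prop
  have hxc : ContinuousOn x (closedBall 0 1) := by
    rw [hx]
    exact (hgSc.comp hlin.continuousOn hmap).sub continuousOn_const
  have hhc : ContinuousOn h (closedBall 0 1) := by
    rw [hh]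
    exact hHc.comp hlin.continuousOn hmap
  have hgz : g z ∈ ball (g 0) r1 := by
    have := (hSb' _ hTzr).2
    rwa [hSTz] at this
  -- estimates
  have hv1 : ∀ s : E n, ‖s‖ ≤ 1 → ‖S (T z + c • s) - z‖ ≤ K * c := by
    intro s hs
    have h1 := ((hSa _ (hSa' _ hTzr)).2.2 _ (hSa' _ (hin s hs))).1
    rw [hSTz, add_sub_cancel_left, norm_smul, Real.norm_of_nonneg hc.le] at h1
    refine h1.trans (mul_le_mul_of_nonneg_left ?_ hK0)
    nlinarith
  have hv2 : ∀ s : E n, ‖s‖ ≤ 1 →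
      ‖S (T z + c • s) - z - c • fderiv ℝ S (T z) s‖ ≤ δ * c := by
    intro s hs
    have h1 := ((hSa _ (hSa' _ hTzr)).2.2 _ (hSa' _ (hin s hs))).2
    rw [hSTz, add_sub_cancel_left, norm_smul, Real.norm_of_nonneg hc.le, map_smul] at h1
    refine h1.trans (mul_le_mul_of_nonneg_left ?_ hδ.le)
    nlinarith
  have hb1 : ∀ s : E n, ‖s‖ ≤ 1 → ‖L.symm (x s) - (S (T z + c • s) - z)‖ ≤ ε * (2 * K * c) := by
    intro s hs
    have h1 := hL (S (T z + c • s) - z) (by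
      rw [← hK]
      refine (hv1 s hs).trans ?_
      nlinarith [mul_nonneg hK0 hc.le])
    rw [add_sub_cancel, ← hK] at h1
    rw [hx]
    exact h1
  have hb2 : ∀ s : E n, ‖s‖ ≤ 1 → ‖L.symm (x s)‖ ≤ 3 * K * c := by
    intro s hs
    have h1 := norm_add_le (L.symm (x s) - (S (T z + c • s) - z)) (S (T z + c • s) - z)
    rw [sub_add_cancel] at h1
    have h2 := hb1 s hs
    have h3 := hv1 s hs
    nlinarith [mul_nonneg hK0 hc.le]
  have hb3 : ∀ s : E n, ‖s‖ ≤ 1 →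
      ‖L.symm (x s) - c • fderiv ℝ S (T z) s‖ ≤ (2 * K * ε + δ) * c := by
    intro s hs
    have h1 := norm_add_le (L.symm (x s) - (S (T z + c • s) - z))
      (S (T z + c • s) - z - c • fderiv ℝ S (T z) s)
    rw [sub_add_sub_cancel] at h1
    have h2 := hb1 s hs
    have h3 := hv2 s hs
    nlinarith
  have hx1 : ∀ s : E n, ‖s‖ ≤ 1 → ‖x s‖ ≤ ‖(L : E n →L[ℝ] E n)‖ * (3 * K * c) := by
    intro s hs
    have h1 := (L : E n →L[ℝ] E n).le_opNorm (L.symm (x s))
    rw [ContinuousLinearEquiv.coe_coe, L.apply_symm_apply] at h1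
    exact h1.trans (mul_le_mul_of_nonneg_left (hb2 s hs) (norm_nonneg _))
  have hR : ∀ s : E n, ‖s‖ ≤ 1 → ‖h s - E0 (g z) - fderiv ℝ E0 (g z) (x s)‖ ≤
      9 * C1 * K ^ 2 * (‖(L : E n →L[ℝ] E n)‖ * c) ^ 2 := by
    intro s hs
    have h1 := (hTay _ hgz).2 _ (hSb' _ (hin s hs)).2
    have h2 : ‖x s‖ ^ 2 ≤ (‖(L : E n →L[ℝ] E n)‖ * (3 * K * c)) ^ 2 :=
      pow_le_pow_left₀ (norm_nonneg _) (hx1 s hs) 2
    rw [hh, hH]
    have e : g (S (T z + c • s)) - g z = x s := by rw [hx]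
    rw [e] at h1
    refine h1.trans ((mul_le_mul_of_nonneg_left h2 hC1).trans (le_of_eq ?_))
    ring
  refine ⟨?_, fun u => ?_⟩
  · obtain ⟨ξ, h1, h2⟩ := core kr_smooth.continuous (fun _ h => kr_zero h) hxc hhc L
      (fderiv ℝ E0 (g z)) (E0 (g z)) hR
    rw [kr_int, one_smul] at h1
    rw [kr_norm, one_mul] at h2
    refine ⟨∫ s, kr n s • L.symm (x s), ξ, ?_, ?_, ?_⟩
    · have e : Term n q g E0 T S c z = ∫ s, kr n s • h s := by
        rw [hTerm, hm, hh]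
      rw [e, h1]
      abel
    · have h3 := int_bd kr_smooth.continuous (fun _ h => kr_zero h) hb2
      rw [kr_norm, one_mul] at h3
      refine h3.trans (mul_le_mul_of_nonneg_right ?_ hc.le)
      have : 0 ≤ 2 * M * K ^ 2 + 2 * M * K := by positivity
      linarith
    · refine h2.trans (mul_le_mul_of_nonneg_right ?_ (by positivity))
      have : 0 ≤ 9 * M * C1 * K ^ 3 := by positivity
      linarith
  · obtain ⟨a, ha⟩ : ∃ a, a = fderiv ℝ T z u := ⟨_, rfl⟩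
    have han : ‖a‖ ≤ K * ‖u‖ := by
      rw [ha]
      exact ((fderiv ℝ T z).le_opNorm u).trans (mul_le_mul_of_nonneg_right hTn (norm_nonneg _))
    have hk1 : ∫ s, ‖k1 a s‖ ≤ M * (K * ‖u‖) := by
      refine (k1_norm a).trans ?_
      rw [← hM]
      exact mul_le_mul_of_nonneg_left han hM0
    obtain ⟨ξ, h1, h2⟩ := core (k1_cont a) (fun _ h => k1_zero h) hxc hhc L
      (fderiv ℝ E0 (g z)) (E0 (g z)) hR
    rw [k1_int, zero_smul, zero_add] at h1
    obtain ⟨η, h3, h4⟩ : ∃ η, ∫ s, k1 a s • L.symm (x s) = c • fderiv ℝ S (T z) a + η ∧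
        ‖η‖ ≤ (∫ s, ‖k1 a s‖) * ((2 * K * ε + δ) * c) := by
      refine ⟨∫ s, k1 a s • (L.symm (x s) - c • fderiv ℝ S (T z) s), ?_,
        int_bd (k1_cont a) (fun _ h => k1_zero h) hb3⟩
      have i1 : Integrable (fun s => k1 a s • L.symm (x s)) :=
        int_cut (k1_cont a) (fun _ h => k1_zero h) (L.symm.continuous.comp_continuousOn hxc)
      have i2 : Integrable (fun s => k1 a s • c • fderiv ℝ S (T z) s) :=
        int_cut (k1_cont a) (fun _ h => k1_zero h) (by fun_prop)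
      have i3 : Integrable (fun s => k1 a s • s) :=
        int_cut (f := fun s => s) (k1_cont a) (fun _ h => k1_zero h) continuousOn_id
      have e1 : c • fderiv ℝ S (T z) a = ∫ s, k1 a s • c • fderiv ℝ S (T z) s := by
        have h5 := (c • fderiv ℝ S (T z)).integral_comp_comm i3
        rw [k1_mom] at h5
        refine Eq.trans ?_ (h5.symm.trans ?_)
        · rfl
        · congr 1
          funext s
          rw [map_smul]
          rfl
      simp only [smul_sub]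
      rw [e1, integral_sub i1 i2]
      abel
    have hD : fderiv ℝ (Term n q g E0 T S c) z u = c⁻¹ • ∫ s, k1 a s • h s := by
      have h5 : HasFDerivAt m (fderiv ℝ m (T z)) (T z) :=
        (hm1.differentiableAt (by simp)).hasFDerivAt
      have h6 : HasFDerivAt (fun z => m (T z)) ((fderiv ℝ m (T z)).comp (fderiv ℝ T z)) z :=
        h5.comp z hTd'
      rw [hTerm, h6.fderiv, ContinuousLinearMap.comp_apply, hm2, ← ha, hh]
    refine ⟨c⁻¹ • η, c⁻¹ • ξ, ?_, ?_, ?_⟩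
    · rw [hD, h1, h3, ha, hcomp u]
      simp only [map_add, map_smul, smul_add]
      rw [smul_smul, inv_mul_cancel₀ hc.ne', one_smul]
    · rw [norm_smul, norm_inv, Real.norm_of_nonneg hc.le]
      have h5 : ‖η‖ ≤ M * (K * ‖u‖) * ((2 * K * ε + δ) * c) :=
        h4.trans (mul_le_mul_of_nonneg_right hk1 (by positivity))
      rw [inv_mul_le_iff₀ hc]
      refine h5.trans ?_
      have h6 : M * (K * ‖u‖) * ((2 * K * ε + δ) * c) =
          c * ((2 * M * K ^ 2 * ε + M * K * δ) * ‖u‖) := by ring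
      rw [h6]
      refine mul_le_mul_of_nonneg_left (mul_le_mul_of_nonneg_right ?_ (norm_nonneg _)) hc.le
      have h7 : 0 ≤ 2 * M * K ^ 2 * δ := by positivity
      have h8 : 0 ≤ 2 * M * K * ε := by positivity
      have h9 : 0 ≤ M * K * δ := by positivity
      have h10 : 0 ≤ (3 * K + 1) * (ε + δ) := by positivity
      nlinarith
    · rw [norm_smul, norm_inv, Real.norm_of_nonneg hc.le]
      have h5 : ‖ξ‖ ≤ M * (K * ‖u‖) * (9 * C1 * K ^ 2 * (‖(L : E n →L[ℝ] E n)‖ * c) ^ 2) :=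
        h2.trans (mul_le_mul_of_nonneg_right hk1 (by positivity))
      rw [inv_mul_le_iff₀ hc]
      refine h5.trans ?_
      have h6 : M * (K * ‖u‖) * (9 * C1 * K ^ 2 * (‖(L : E n →L[ℝ] E n)‖ * c) ^ 2) =
          c * (9 * M * C1 * K ^ 3 * ‖(L : E n →L[ℝ] E n)‖ ^ 2 * c * ‖u‖) := by ring
      rw [h6]
      have h7 : 0 ≤ 9 * C1 * K ^ 2 := by positivity
      gcongr
      linarith

end Pool.Agent.Y98.NA
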