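import Pool.Agent.Y522.NA.Stm
import Pool.Agent.Y954.SH.MollS

/-!
# Derivative of a mollification
-/

set_option autoImplicit false

open Set Filter Topology Metric Function MeasureTheory
open scoped Manifold ContDiff Convolution

noncomputable section

namespace Pool.Agent.Y98.NA

open Pool.Agent.Y522 Pool.Agent.Y522.NA Pool.Agent.Y954.SH

variable {n : ℕ} {V : Type} [NormedAddCommGroup V] [NormedSpace ℝ V]

/-- substitution -/
lemma sub1 (k : E n → ℝ) (G : E n → V) (y : E n) {r : ℝ} (hr : 0 < r) :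
    ∫ s, k s • G (y + r • s) = ∫ t, ((r ^ n)⁻¹ * k (r⁻¹ • (t - y))) • G t := by
  have h1 : ∫ t, ((r ^ n)⁻¹ * k (r⁻¹ • (t - y))) • G t =
      ∫ t, ((r ^ n)⁻¹ * k (r⁻¹ • t)) • G (y + t) := by
    rw [← integral_add_left_eq_self (fun t => ((r ^ n)⁻¹ * k (r⁻¹ • (t - y))) • G t) y]
    congr 1
    funext t
    rw [add_sub_cancel_left]
  rw [h1]
  have h2 := Measure.integral_comp_smul_of_nonneg (volume : Measure (E n))
    (fun t => ((r ^ n)⁻¹ * k (r⁻¹ • t)) • G (y + t)) r (hR := hr.le)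
  rw [finrank_euclideanSpace, Fintype.card_fin] at h2
  have h3 : ∀ s : E n, ((r ^ n)⁻¹ * k (r⁻¹ • r • s)) • G (y + r • s) =
      (r ^ n)⁻¹ • (k s • G (y + r • s)) := by
    intro s
    rw [smul_smul, inv_mul_cancel₀ hr.ne', one_smul, smul_smul]
  simp only [h3] at h2
  rw [integral_smul] at h2
  exact smul_right_injective _ (inv_ne_zero (pow_ne_zero n hr.ne')) h2

/-- the scaled kernel -/
def ps (n : ℕ) (r : ℝ) (t : E n) : ℝ := (r ^ n)⁻¹ * kr n (r⁻¹ • t)

lemma ps_smooth (r : ℝ) : ContDiff ℝ ∞ (ps n r) := by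
  unfold ps
  exact contDiff_const.mul (kr_smooth.comp (contDiff_const_smul r⁻¹))

lemma ps_supp {r : ℝ} (hr : 0 < r) : HasCompactSupport (ps n r) := by
  refine HasCompactSupport.intro (isCompact_closedBall (0 : E n) r) fun t ht => ?_
  rw [mem_closedBall_zero_iff, not_le] at ht
  unfold ps
  rw [kr_zero, mul_zero]
  rw [norm_smul, norm_inv, Real.norm_of_nonneg hr.le, inv_mul_eq_div, le_div_iff₀ hr]
  linarith

/-- the derivative of the kernel, with a sign -/
def k1 (a : E n) (s : E n) : ℝ := -(fderiv ℝ (kr n) s a)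

lemma ps_fderiv {r : ℝ} (t a : E n) :
    fderiv ℝ (ps n r) t a = (r ^ n)⁻¹ * (r⁻¹ * fderiv ℝ (kr n) (r⁻¹ • t) a) := by
  have h1 : HasFDerivAt (kr n) (fderiv ℝ (kr n) (r⁻¹ • t)) (r⁻¹ • t) :=
    (kr_smooth.differentiable (by simp)).differentiableAt.hasFDerivAt
  have h2 : HasFDerivAt (fun t : E n => r⁻¹ • t) (r⁻¹ • ContinuousLinearMap.id ℝ (E n)) t :=
    (hasFDerivAt_id t).const_smul r⁻¹
  have h3 : HasFDerivAt (ps n r) ((r ^ n)⁻¹ • ((fderiv ℝ (kr n) (r⁻¹ • t)).comp
      (r⁻¹ • ContinuousLinearMap.id ℝ (E n)))) t := (h1.comp t h2).const_smul (r ^ n)⁻¹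
  rw [h3.fderiv]
  simp

lemma kr_fderiv_neg (s a : E n) : fderiv ℝ (kr n) (-s) a = -(fderiv ℝ (kr n) s a) := by
  have h1 : HasFDerivAt (kr n) (fderiv ℝ (kr n) (-s)) (-s) :=
    (kr_smooth.differentiable (by simp)).differentiableAt.hasFDerivAt
  have h2 : HasFDerivAt (fun t : E n => -t) (-ContinuousLinearMap.id ℝ (E n)) s :=
    (hasFDerivAt_id s).neg
  have h3 : HasFDerivAt (kr n) ((fderiv ℝ (kr n) (-s)).comp (-ContinuousLinearMap.id ℝ (E n))) s :=
    (h1.comp s h2).congr_of_eventuallyEq (Eventually.of_forall fun t => (kr_neg t).symm)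
  rw [h3.fderiv]
  simp

lemma kr_fderiv_zero {s : E n} (hs : 1 ≤ ‖s‖) : fderiv ℝ (kr n) s = 0 := by
  apply IsLocalMin.fderiv_eq_zero
  refine Eventually.of_forall fun y => ?_
  show kr n s ≤ kr n y
  rw [kr_zero hs]
  exact kr_nonneg y

lemma k1_zero {a s : E n} (hs : 1 ≤ ‖s‖) : k1 a s = 0 := by
  unfold k1
  rw [kr_fderiv_zero hs]
  simp

lemma k1_cont (a : E n) : Continuous (k1 a) := by
  unfold k1
  exact ((kr_smooth.continuous_fderiv (by simp)).clm_apply continuous_const).neg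

/-- The derivative of a mollification. -/
theorem mol_fderiv [CompleteSpace V] {G : E n → V} (hG : LocallyIntegrable G volume) {r : ℝ} (hr : 0 < r) :
    ContDiff ℝ ∞ (fun y => ∫ s, kr n s • G (y + r • s)) ∧
      ∀ y a, fderiv ℝ (fun y => ∫ s, kr n s • G (y + r • s)) y a =
        r⁻¹ • ∫ s, k1 a s • G (y + r • s) := by
  have h0 : (fun y => ∫ s, kr n s • G (y + r • s)) =
      (G ⋆[(ContinuousLinearMap.lsmul ℝ ℝ : ℝ →L[ℝ] V →L[ℝ] V).flip, volume] ps n r) := by
    funext y
    rw [sub1 (kr n) G y hr, convolution_def]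
    congr 1
    funext t
    rw [ContinuousLinearMap.flip_apply, ContinuousLinearMap.lsmul_apply]
    unfold ps
    rw [← kr_neg (r⁻¹ • (t - y)), ← smul_neg, neg_sub]
  rw [h0]
  refine ⟨(ps_supp hr).contDiff_convolution_right (n := ⊤) _ hG (ps_smooth r), fun y a => ?_⟩
  rw [((ps_supp hr).hasFDerivAt_convolution_right _ hG ((ps_smooth r).of_le (by simp)) y).fderiv,
    convolution_precompR_apply _ hG ((ps_supp hr).fderiv (𝕜 := ℝ))
      ((ps_smooth r).continuous_fderiv (by simp)) y a, convolution_def, ← integral_smul]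
  have h1 := sub1 (fun s => r⁻¹ * k1 a s) G y hr
  have h2 : ∀ s, (r⁻¹ * k1 a s) • G (y + r • s) = r⁻¹ • (k1 a s • G (y + r • s)) := fun s => by
    rw [smul_smul]
  simp only [h2] at h1
  rw [h1]
  congr 1
  funext t
  rw [ContinuousLinearMap.flip_apply, ContinuousLinearMap.lsmul_apply, ps_fderiv]
  unfold k1
  rw [← kr_fderiv_neg, ← smul_neg, neg_sub]

lemma k1_int (a : E n) : ∫ s, k1 a s = 0 := by
  have h := (mol_fderiv (n := n) (V := ℝ) (G := fun _ => (1 : ℝ))
    (locallyIntegrable_const 1) one_pos).2 0 a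
  simp only [smul_eq_mul, mul_one, inv_one, one_mul] at h
  rw [← h]
  rw [fderiv_const_apply]
  rfl

lemma int_cut {k : E n → ℝ} (hk : Continuous k) (h0 : ∀ s, 1 ≤ ‖s‖ → k s = 0) {f : E n → V}
    (hf : ContinuousOn f (closedBall 0 1)) : Integrable (fun s => k s • f s) := by
  have h1 : (fun s => k s • f s) = (closedBall (0 : E n) 1).indicator (fun s => k s • f s) := by
    funext s
    by_cases hs : s ∈ closedBall (0 : E n) 1
    · rw [indicator_of_mem hs]
    · rw [indicator_of_notMem hs]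
      rw [mem_closedBall_zero_iff, not_le] at hs
      rw [h0 s hs.le, zero_smul]
  rw [h1, integrable_indicator_iff measurableSet_closedBall]
  exact (hk.continuousOn.smul hf).integrableOn_compact (isCompact_closedBall _ _)

lemma int_bd {k : E n → ℝ} (hk : Continuous k) (h0 : ∀ s, 1 ≤ ‖s‖ → k s = 0) {f : E n → V}
    {B : ℝ} (hB : ∀ s, ‖s‖ ≤ 1 → ‖f s‖ ≤ B) : ‖∫ s, k s • f s‖ ≤ (∫ s, ‖k s‖) * B := by
  rw [← integral_mul_const]
  have h1 : Integrable (fun s => k s • (1 : ℝ)) := int_cut hk h0 continuousOn_const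
  simp only [smul_eq_mul, mul_one] at h1
  refine norm_integral_le_of_norm_le (h1.norm.mul_const B) (Eventually.of_forall fun s => ?_)
  rw [norm_smul]
  by_cases hs : 1 ≤ ‖s‖
  · rw [h0 s hs]
    simp
  · exact mul_le_mul_of_nonneg_left (hB s (not_le.1 hs).le) (norm_nonneg _)

lemma k1_mom (a : E n) : ∫ s, k1 a s • s = a := by
  have h := (mol_fderiv (n := n) (V := E n) (G := fun t => t)
    continuous_id.locallyIntegrable one_pos).2 0 a
  simp only [inv_one, one_smul, zero_add] at h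
  rw [← h]
  have h1 : (fun y : E n => ∫ s, kr n s • (y + s)) = fun y => y + ∫ s, kr n s • s := by
    funext y
    simp only [smul_add]
    rw [integral_add (int_cut kr_smooth.continuous (fun _ h => kr_zero h) continuousOn_const)
      (int_cut (f := fun s => s) kr_smooth.continuous (fun _ h => kr_zero h) continuousOn_id),
      integral_smul_const, kr_int, one_smul]
  rw [h1]
  have h2 : HasFDerivAt (fun y : E n => y + ∫ s, kr n s • s) (ContinuousLinearMap.id ℝ (E n)) 0 :=
    (hasFDerivAt_id _).add_const _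
  rw [h2.fderiv]
  rfl

/-- local version -/
theorem mol_loc [CompleteSpace V] {H : E n → V} {y : E n} {R : ℝ}
    (hH : ContinuousOn H (closedBall y R)) {r : ℝ} (hr : 0 < r) {w : E n}
    (hw : dist w y + r < R) :
    ContDiffAt ℝ ∞ (fun y => ∫ s, kr n s • H (y + r • s)) w ∧
      ∀ a, fderiv ℝ (fun y => ∫ s, kr n s • H (y + r • s)) w a =
        r⁻¹ • ∫ s, k1 a s • H (w + r • s) := by
  obtain ⟨G, hG⟩ : ∃ G, G = (closedBall y R).indicator H := ⟨_, rfl⟩
  have hint : Integrable G := by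
    rw [hG, integrable_indicator_iff measurableSet_closedBall]
    exact hH.integrableOn_compact (isCompact_closedBall _ _)
  have hin : ∀ w', dist w' y + r < R → ∀ s : E n, ‖s‖ < 1 → G (w' + r • s) = H (w' + r • s) := by
    intro w' hw' s hs
    rw [hG, indicator_of_mem]
    rw [mem_closedBall]
    calc dist (w' + r • s) y ≤ dist (w' + r • s) w' + dist w' y := dist_triangle _ _ _
      _ = r * ‖s‖ + dist w' y := by
          rw [dist_eq_norm, add_sub_cancel_left, norm_smul, Real.norm_of_nonneg hr.le]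
      _ ≤ r * 1 + dist w' y := by gcongr
      _ ≤ R := by linarith
  have hk : ∀ (k : E n → ℝ), (∀ s, 1 ≤ ‖s‖ → k s = 0) → ∀ w', dist w' y + r < R →
      ∫ s, k s • H (w' + r • s) = ∫ s, k s • G (w' + r • s) := by
    intro k hk w' hw'
    congr 1
    funext s
    by_cases hs : 1 ≤ ‖s‖
    · rw [hk s hs, zero_smul, zero_smul]
    · rw [hin w' hw' s (not_le.1 hs)]
  have hev : (fun y => ∫ s, kr n s • H (y + r • s)) =ᶠ[𝓝 w]
      fun y => ∫ s, kr n s • G (y + r • s) := by
    have h1 : ∀ᶠ w' in 𝓝 w, dist w' y + r < R := by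
      have h2 : Continuous fun w' : E n => dist w' y + r := by fun_prop
      exact h2.continuousAt.eventually_lt_const hw
    filter_upwards [h1] with w' hw'
    exact hk _ (fun _ h => kr_zero h) w' hw'
  obtain ⟨h1, h2⟩ := mol_fderiv hint.locallyIntegrable hr
  refine ⟨h1.contDiffAt.congr_of_eventuallyEq hev, fun a => ?_⟩
  rw [hev.fderiv_eq, h2 w a, hk _ (fun _ h => k1_zero h) w hw]

end Pool.Agent.Y98.NA
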